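import Pool.Agent.Lib.MP_4fbe7c_an.FC.Iface2
import Pool.Agent.Lib.MP_4fbe7c_an.SD.WNEAR

/-!
Module MAINC (helper23): rates close to the smallest one and any number of fast species.
-/

set_option autoImplicit false

open Set

namespace Pool.Agent.Lib.MP_4fbe7c_an.FC.H23

open Pool.Agent.Lib.MP_4fbe7c_an.SD
open Pool.Agent.Lib.MP_4fbe7c_an.FC

theorem bound {L : ℝ} {m : ℝ → ℝ} (hm : ContinuousOn m (Icc 0 L)) :
    ∃ M : ℝ, 0 < M ∧ ∀ x ∈ Icc 0 L, |m x| ≤ M := by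
  obtain ⟨C, hC⟩ := isCompact_Icc.exists_bound_of_continuousOn hm
  refine ⟨max C 1, lt_of_lt_of_le one_pos (le_max_right _ _), fun x hx => ?_⟩
  have := hC x hx
  rw [Real.norm_eq_abs] at this
  exact this.trans (le_max_left _ _)

theorem mainc (_hpa : PaStatement) (hexe : ExEStatement) (hfinc : FinCStatement) :
    MainCStatement := by
  intro L d₁ m θ θ' θ'' hL hm hnc hd₁ hθ
  obtain ⟨M, hM0, hM⟩ := bound hm
  obtain ⟨D₁, hD₁, hW⟩ := weight_near hL hm hnc hd₁ hθ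
  obtain ⟨D₂, hD₂, hE⟩ := hexe L M d₁ d₁ m hL hm hnc hM hM0 hd₁ le_rfl
  refine ⟨D₁, D₂, hD₁, ?_⟩
  intro N d i₀ hi hd
  classical
  obtain ⟨A, hA⟩ : ∃ A : Finset (Fin N), A = Finset.univ.filter fun j => j ≠ i₀ ∧ d j < D₁ :=
    ⟨_, rfl⟩
  have hAm : ∀ j, j ∈ A ↔ j ≠ i₀ ∧ d j < D₁ := fun j => by rw [hA]; simp
  have hw : ∀ j, ∃ φ φ' φ'' : ℝ → ℝ, j ∈ A → Weight L m θ (d j) φ φ' φ'' := by
    intro j
    by_cases hj : j ∈ A
    · obtain ⟨h1, h2⟩ := (hAm j).1 hj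
      obtain ⟨φ, φ', φ'', h⟩ := hW (d j) (hd j h1).1 h2
      exact ⟨φ, φ', φ'', fun _ => h⟩
    · exact ⟨fun _ => 0, fun _ => 0, fun _ => 0, fun h => absurd h hj⟩
  choose φ φ' φ'' hφ using hw
  have hlt : ∀ j, j ≠ i₀ → d i₀ < d j := fun j hj => by rw [hi]; exact (hd j hj).1
  have hd0 : 0 < d i₀ := by rw [hi]; exact hd₁
  have hdp : ∀ j, 0 < d j := by
    intro j
    by_cases hj : j = i₀
    · rw [hj]; exact hd0
    · exact hd0.trans (hlt j hj)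
  have hθ' : Steady L m (d i₀) θ θ' θ'' := by rw [hi]; exact hθ
  refine hfinc L M m θ θ' θ'' N d i₀ A φ φ' φ'' hL hm hnc hM0 hM hd0 hlt ?_ hθ'
    (fun j hj => hφ j hj) ?_
  · intro h
    exact ((hAm i₀).1 h).1 rfl
  · intro u v w hs hp j hj hjA hpj
    refine hE N d u v w i₀ j ⟨hL, hM0, hm, hM, hdp, hs⟩ (by rw [hi]) (by rw [hi]) hp ?_ hpj ?_
    · intro k _
      by_cases hk : k = i₀
      · rw [hk]
      · exact (hlt k hk).le
    · rcases (hd j hj).2 with h | h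
      · exact absurd ((hAm j).2 ⟨hj, h⟩) hjA
      · exact h

end Pool.Agent.Lib.MP_4fbe7c_an.FC.H23
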